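import Pool.Agent.Results.MP_cc4f83_nt.EvenCentralValues

/-!
# The proportion of the nonzero central values of the newforms of weight two and prime level, and the
# moments of order `s / log N`

`H N 1` is the set `H_2^+(N)` of the newforms of weight two and level `N` with root number `+1`, and
`cv f` is the central value `L(1/2, f)` (both as in `Pool.Agent.Results.MP_cc4f83_nt.EvenCentralValues`).

For a prime `N ≥ 650` and `0 < s ≤ 1` the mean of `|L(1/2, f)| ^ (s / log N)` over `H_2^+(N)` differs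
from the proportion `p(N)` of the nonzero central values by at most `6640 s`.  In particular the
question, whether the limit inferior of `p(N)` is larger than `1/2`, is a question about the moments of
the order `s / log N`, for one small constant `s`.

The proof: `e ^ (- s a) ≥ 1 - s a` for `|L(1/2, f)| = N ^ (-a)`, and the sum of the `a` over the `f` with
`L(1/2, f) ≠ 0` is at most `6640` times the number of the forms.
-/

set_option autoImplicit false

open Complex Filter Topology Set UpperHalfPlane MatrixGroups CongruenceSubgroup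

namespace Pool.Agent.Results.MP_20b2fd_nt.TinyMoments

open Pool.Agent.Results.MP_cc4f83_nt.EvenCentralValues

/-- the proportion `p(N)` of the newforms in `H_2^+(N)` with nonzero central value -/
noncomputable def proportion (N : ℕ) : ℝ :=
  (({f ∈ H N 1 | cv f ≠ 0}.ncard : ℕ) : ℝ) / ((H N 1).ncard : ℝ)

/-- the mean of `|L(1/2, f)| ^ (s / log N)` over `f ∈ H_2^+(N)` (here `0 ^ x = 0` for `x > 0`) -/
noncomputable def moment (s : ℝ) (N : ℕ) : ℝ :=
  (∑ᶠ f ∈ H N 1, |cv f| ^ (s / Real.log N)) / ((H N 1).ncard : ℝ)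

/-- the finite inequality -/
theorem core {ι : Type} (B : Finset ι) (v : ι → ℝ) (X K : ℝ) (hX : 1 < X) (hK : 61 ≤ K)
    (hv : ∀ f ∈ B, 0 ≤ v f) (hu : ∀ f ∈ B, v f ≤ X ^ (3 : ℝ))
    (hp : X ^ (-(K * (B.card : ℝ))) ≤ ∏ f ∈ B with v f ≠ 0, v f) (s : ℝ) (hs : 0 < s) (hs1 : s ≤ 1) :
    |(∑ f ∈ B, v f ^ (s / Real.log X)) - ((B.filter fun f => v f ≠ 0).card : ℝ)| ≤
      K * s * B.card := by
  classical
  have hL : 0 < Real.log X := Real.log_pos hX
  have hX0 : 0 < X := by linarith
  have hsL : 0 < s / Real.log X := div_pos hs hL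
  have hpos : ∀ f ∈ B.filter (fun f => v f ≠ 0), 0 < v f := by
    intro f hf
    rw [Finset.mem_filter] at hf
    exact lt_of_le_of_ne (hv f hf.1) (Ne.symm hf.2)
  have e1 : ∑ f ∈ B, v f ^ (s / Real.log X) = ∑ f ∈ B with v f ≠ 0, v f ^ (s / Real.log X) := by
    rw [Finset.sum_filter]
    refine Finset.sum_congr rfl fun f _ => ?_
    split_ifs with h
    · rfl
    · rw [not_not] at h
      rw [h, Real.zero_rpow hsL.ne']
  have hlog : -(K * (B.card : ℝ)) * Real.log X ≤ ∑ f ∈ B with v f ≠ 0, Real.log (v f) := by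
    rw [← Real.log_prod (fun f hf => (hpos f hf).ne'), ← Real.log_rpow hX0]
    exact Real.log_le_log (Real.rpow_pos_of_pos hX0 _) hp
  have hlow : ((B.filter fun f => v f ≠ 0).card : ℝ) - K * s * B.card ≤
      ∑ f ∈ B with v f ≠ 0, v f ^ (s / Real.log X) := by
    have h1 : ∀ f ∈ B.filter (fun f => v f ≠ 0),
        1 + s / Real.log X * Real.log (v f) ≤ v f ^ (s / Real.log X) := by
      intro f hf
      rw [Real.rpow_def_of_pos (hpos f hf)]
      have := Real.add_one_le_exp (Real.log (v f) * (s / Real.log X))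
      linarith
    have h2 := Finset.sum_le_sum h1
    rw [Finset.sum_add_distrib, ← Finset.mul_sum, Finset.sum_const, nsmul_eq_mul, mul_one] at h2
    refine le_trans ?_ h2
    have h3 : s / Real.log X * (-(K * (B.card : ℝ)) * Real.log X) ≤
        s / Real.log X * ∑ f ∈ B with v f ≠ 0, Real.log (v f) :=
      mul_le_mul_of_nonneg_left hlog hsL.le
    have h4 : s / Real.log X * (-(K * (B.card : ℝ)) * Real.log X) = -(K * s * B.card) := by
      field_simp
    linarith
  have hupp : ∑ f ∈ B with v f ≠ 0, v f ^ (s / Real.log X) ≤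
      ((B.filter fun f => v f ≠ 0).card : ℝ) + K * s * B.card := by
    have h1 : ∀ f ∈ B.filter (fun f => v f ≠ 0), v f ^ (s / Real.log X) ≤ 1 + K * s := by
      intro f hf
      have hfB := (Finset.mem_filter.1 hf).1
      have h2 : v f ^ (s / Real.log X) ≤ (X ^ (3 : ℝ)) ^ (s / Real.log X) :=
        Real.rpow_le_rpow (hv f hfB) (hu f hfB) hsL.le
      have h3 : (X ^ (3 : ℝ)) ^ (s / Real.log X) = Real.exp (3 * s) := by
        rw [← Real.rpow_mul hX0.le, Real.rpow_def_of_pos hX0]
        congr 1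
        field_simp
      have h4 : Real.exp (3 * s) ≤ 1 + 61 * s := by
        have h5 : 1 - 3 * s ≤ Real.exp (-(3 * s)) := by
          have := Real.add_one_le_exp (-(3 * s))
          linarith
        have h6 : Real.exp (3 * s) * Real.exp (-(3 * s)) = 1 := by
          rw [← Real.exp_add, add_neg_cancel, Real.exp_zero]
        have h7 : Real.exp (3 * s) ≤ Real.exp 3 := Real.exp_le_exp.2 (by linarith)
        have h8 : Real.exp 3 ≤ 20.3 := by
          have h9 := Real.exp_one_lt_d9
          have h10 : Real.exp 3 = Real.exp 1 ^ 3 := by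
            rw [← Real.exp_nat_mul]
            norm_num
          rw [h10]
          calc Real.exp 1 ^ 3 ≤ (2.7182818286 : ℝ) ^ 3 := by
                gcongr
            _ ≤ 20.3 := by norm_num
        have h11 : Real.exp (3 * s) * (1 - 3 * s) ≤ 1 :=
          (mul_le_mul_of_nonneg_left h5 (Real.exp_pos _).le).trans h6.le
        have h12 : Real.exp (3 * s) * s ≤ 20.3 * s :=
          mul_le_mul_of_nonneg_right (h7.trans h8) hs.le
        nlinarith
      have h5 : 61 * s ≤ K * s := mul_le_mul_of_nonneg_right hK hs.le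
      linarith
    have h2 := Finset.sum_le_sum h1
    rw [Finset.sum_const, nsmul_eq_mul] at h2
    have h3 : ((B.filter fun f => v f ≠ 0).card : ℝ) ≤ B.card := by
      exact_mod_cast Finset.card_filter_le _ _
    have h4 : ((B.filter fun f => v f ≠ 0).card : ℝ) * (K * s) ≤ B.card * (K * s) :=
      mul_le_mul_of_nonneg_right h3 (by positivity)
    linarith
  rw [e1, abs_le]
  constructor <;> linarith

/-- the sum and the number, for `N ≥ 3` -/
theorem sum_num {N : ℕ} (hN : N.Prime) (h3 : 3 ≤ N) {s : ℝ} (hs : 0 < s) (hs1 : s ≤ 1) :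
    |(∑ᶠ f ∈ H N 1, |cv f| ^ (s / Real.log N)) - (({f ∈ H N 1 | cv f ≠ 0}.ncard : ℕ) : ℝ)| ≤
      332 * s * ((HH N).ncard : ℝ) := by
  classical
  obtain ⟨B, hB, -, -, hp, hu, hsb, -⟩ := one hN h3
  have hN1 : (1 : ℝ) < N := by exact_mod_cast hN.one_lt
  have hsL : s / Real.log N ≠ 0 := (div_pos hs (Real.log_pos hN1)).ne'
  have h1 := core B (fun f => |cv f|) (N : ℝ) 332 hN1 (by norm_num) (fun f _ => abs_nonneg _) hu hp
    s hs hs1
  have e1 : ({f ∈ H N 1 | cv f ≠ 0} : Set (S2 N)) =
      ((B.filter fun f => |cv f| ≠ 0 : Finset (S2 N)) : Set (S2 N)) := by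
    ext f
    rw [Finset.coe_filter]
    constructor
    · intro hf
      have : f ∈ HH N := Or.inl hf.1
      rw [hB] at this
      exact ⟨this, abs_ne_zero.2 hf.2⟩
    · intro hf
      exact ⟨hsb f hf.1 (abs_ne_zero.1 hf.2), abs_ne_zero.1 hf.2⟩
  have hsub : H N 1 ⊆ (B : Set (S2 N)) := fun f hf => by
    rw [← hB]
    exact Or.inl hf
  have e2 : ∑ᶠ f ∈ H N 1, |cv f| ^ (s / Real.log N) = ∑ f ∈ B, |cv f| ^ (s / Real.log N) := by
    refine finsum_mem_eq_sum_of_inter_support_eq _ ?_
    ext f
    constructor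
    · intro hf
      exact ⟨hsub hf.1, hf.2⟩
    · intro hf
      refine ⟨hsb f hf.1 fun h0 => hf.2 ?_, hf.2⟩
      simp only [h0, abs_zero]
      exact Real.zero_rpow hsL
  rw [e2, e1, Set.ncard_coe_finset, hB, Set.ncard_coe_finset]
  exact h1

theorem moment_proportion {N : ℕ} (hN : N.Prime) (h3 : 650 ≤ N) {s : ℝ} (hs : 0 < s) (hs1 : s ≤ 1) :
    |moment s N - proportion N| ≤ 6640 * s := by
  have h1 := sum_num hN (by omega) hs hs1
  have h2 : ((HH N).ncard : ℝ) ≤ 20 * ((H N 1).ncard : ℝ) := by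
    exact_mod_cast (even_many hN (by omega)).2 h3
  have h4 : (0 : ℝ) < ((H N 1).ncard : ℝ) := by
    have := (even_many hN (by omega)).1
    have : 0 < (H N 1).ncard := by omega
    exact_mod_cast this
  unfold moment proportion
  rw [← sub_div, abs_div, abs_of_pos h4, div_le_iff₀ h4]
  refine h1.trans ?_
  calc 332 * s * ((HH N).ncard : ℝ) ≤ 332 * s * (20 * ((H N 1).ncard : ℝ)) :=
        mul_le_mul_of_nonneg_left h2 (by positivity)
    _ = _ := by ring

theorem primes_neBot : primes.NeBot := by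
  unfold primes
  rw [← frequently_mem_iff_neBot]
  exact Nat.frequently_atTop_iff_infinite.2 Nat.infinite_setOf_prime

theorem ev_prime : ∀ᶠ N in primes, N.Prime :=
  (eventually_principal.2 fun _ h => h : ∀ᶠ N in 𝓟 {N : ℕ | N.Prime}, N.Prime).filter_mono
    inf_le_right

theorem ev_large : ∀ᶠ N in primes, 650 ≤ N := (eventually_ge_atTop 650).filter_mono inf_le_left

theorem proportion_mem {N : ℕ} (hN : N.Prime) (h3 : 650 ≤ N) :
    0 ≤ proportion N ∧ proportion N ≤ 1 := by
  obtain ⟨B, hB, -⟩ := one hN (by omega)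
  have hfin : (H N 1).Finite := (by rw [hB]; exact B.finite_toSet : (HH N).Finite).subset
    fun f hf => Or.inl hf
  have hs : {f ∈ H N 1 | cv f ≠ 0} ⊆ H N 1 := fun f hf => hf.1
  unfold proportion
  refine ⟨by positivity, div_le_one_of_le₀ ?_ (Nat.cast_nonneg _)⟩
  exact Nat.cast_le.2 (Set.ncard_le_ncard hs hfin)

theorem liminf_iff (θ : ℝ) : θ < liminf proportion primes ↔
    ∃ s : ℝ, 0 < s ∧ s ≤ 1 ∧ θ + 6640 * s < liminf (moment s) primes := by
  haveI := primes_neBot
  have hpb : IsBoundedUnder (· ≥ ·) primes proportion := by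
    refine ⟨0, ?_⟩
    rw [eventually_map]
    filter_upwards [ev_prime, ev_large] with N hN h3
    exact (proportion_mem hN h3).1
  have hpc : IsCoboundedUnder (· ≥ ·) primes proportion := by
    refine IsBoundedUnder.isCoboundedUnder_ge ⟨1, ?_⟩
    rw [eventually_map]
    filter_upwards [ev_prime, ev_large] with N hN h3
    exact (proportion_mem hN h3).2
  constructor
  · intro h
    obtain ⟨t, ht1, ht2⟩ := exists_between h
    set s : ℝ := min 1 ((t - θ) / (4 * 6640)) with hs
    have hs0 : 0 < s := lt_min one_pos (by linarith)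
    have hs1 : s ≤ 1 := min_le_left _ _
    have hs2 : s ≤ (t - θ) / (4 * 6640) := min_le_right _ _
    refine ⟨s, hs0, hs1, ?_⟩
    have hsc : IsCoboundedUnder (· ≥ ·) primes (moment s) := by
      refine IsBoundedUnder.isCoboundedUnder_ge ⟨1 + 6640 * s, ?_⟩
      rw [eventually_map]
      filter_upwards [ev_prime, ev_large] with N hN h3
      have h1 := (proportion_mem hN h3).2
      have h2 := (abs_le.1 (moment_proportion hN h3 hs0 hs1)).2
      linarith
    have h1 : ∀ᶠ N in primes, t < proportion N := eventually_lt_of_lt_liminf ht2 hpb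
    have h2 : t - 6640 * s ≤ liminf (moment s) primes := by
      refine le_liminf_of_le hsc ?_
      filter_upwards [h1, ev_prime, ev_large] with N h3 hN h4
      have h5 := (abs_le.1 (moment_proportion hN h4 hs0 hs1)).1
      linarith
    have h3 : 4 * 6640 * s ≤ t - θ := by
      rw [le_div_iff₀ (by norm_num)] at hs2
      linarith
    linarith
  · rintro ⟨s, hs0, hs1, h⟩
    obtain ⟨t, ht1, ht2⟩ := exists_between h
    have hsb : IsBoundedUnder (· ≥ ·) primes (moment s) := by
      refine ⟨0 - 6640 * s, ?_⟩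
      rw [eventually_map]
      filter_upwards [ev_prime, ev_large] with N hN h3
      have h1 := (proportion_mem hN h3).1
      have h2 := (abs_le.1 (moment_proportion hN h3 hs0 hs1)).1
      linarith
    have h1 : ∀ᶠ N in primes, t < moment s N := eventually_lt_of_lt_liminf ht2 hsb
    have h2 : t - 6640 * s ≤ liminf proportion primes := by
      refine le_liminf_of_le hpc ?_
      filter_upwards [h1, ev_prime, ev_large] with N h3 hN h4
      have h5 := (abs_le.1 (moment_proportion hN h4 hs0 hs1)).2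
      linarith
    linarith

/-- **The proportion of the nonzero central values and the moments of order `s / log N`.** -/
theorem result :
    (∀ N : ℕ, N.Prime → (H N 1).Finite ∧
      ∀ f ∈ H N 1, ∃ L : ℂ → ℂ, IsLfun f L ∧ L (1 / 2) = (cv f : ℂ)) ∧
    (∀ N : ℕ, N.Prime → 650 ≤ N → ∀ s : ℝ, 0 < s → s ≤ 1 →
      |moment s N - proportion N| ≤ 6640 * s) ∧
    (∀ N : ℕ, N.Prime → 3 ≤ N → ∀ s : ℝ, 0 < s → s ≤ 1 →
      |(∑ᶠ f ∈ H N 1, |cv f| ^ (s / Real.log N)) - (({f ∈ H N 1 | cv f ≠ 0}.ncard : ℕ) : ℝ)| ≤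
        332 * s * ((HH N).ncard : ℝ)) ∧
    (∀ θ : ℝ, θ < liminf proportion primes ↔
      ∃ s : ℝ, 0 < s ∧ s ≤ 1 ∧ θ + 6640 * s < liminf (moment s) primes) :=
  ⟨Pool.Agent.Results.MP_cc4f83_nt.EvenCentralValues.result.1,
    fun _ hN h3 _ hs hs1 => moment_proportion hN h3 hs hs1,
    fun _ hN h3 _ hs hs1 => sum_num hN h3 hs hs1, liminf_iff⟩

end Pool.Agent.Results.MP_20b2fd_nt.TinyMoments
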